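import Mathlib

/-!
Diagonal Ramsey numbers of star forests. Let `F` be a star forest with `k ≥ 2` stars of sizes
`n_1 ≥ ... ≥ n_k ≥ 1` and `M(F) = max_i (n_1 + ... + n_{i-1} + 2 n_i)`. Then
`M(F) ≤ r(F) ≤ M(F) + 3 k - 1`.

Upper bound. In one colour, embed the stars one after the other: a state has the centres
`c_0, ..., c_{i-1}`, each with a set of `s_l` leaves, and each centre `c_l` keeps `k - i` spare
neighbours which are uncovered or leaves of later stars. A vertex `v` with at least
`s_i + k - i` uncovered neighbours becomes the next centre; if `v` is a leaf it is first freed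
by a chain of replacements (`remove_lemma`). If the process is stuck at stage `i`, all vertices
outside a set of size `i` have few neighbours in a large set; this cannot happen in both colours,
by double counting (`not_both_stuck`).

Lower bounds: two red cliques with blue between them, and a small red dominating set.
-/

set_option autoImplicit false

namespace Pool.Agent.Results.MP_705b7e_co.StarForestBounds

open Finset Classical

/-- Every colouring of the edges of the complete graph on `N` vertices with the colours red and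
blue contains a monochromatic copy of `G`. Here `R` is the graph of the red edges, its complement
`Rᶜ` is the graph of the blue edges, and `G.IsContained R` says that some (not necessarily
induced) subgraph of `R` is isomorphic to `G`. -/
def Arrows (N : ℕ) {V : Type} (G : SimpleGraph V) : Prop :=
  ∀ R : SimpleGraph (Fin N), G.IsContained R ∨ G.IsContained Rᶜ

/-- The Ramsey number `r(G)`: the least `N` such that every colouring of the edges of `K_N` with
two colours contains a monochromatic copy of `G` (it exists, see `arrows_ramseyNumber`). -/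
noncomputable def ramseyNumber {V : Type} (G : SimpleGraph V) : ℕ :=
  sInf {N : ℕ | Arrows N G}


theorem Arrows.mono {N M : ℕ} (h : N ≤ M) {V : Type} {G : SimpleGraph V}
    (hG : Arrows N G) : Arrows M G := by
  intro R
  have key : ∀ Q : SimpleGraph (Fin M), G.IsContained (Q.comap (Fin.castLE h)) →
      G.IsContained Q := by
    intro Q hQ
    exact hQ.trans ⟨⟨⟨Fin.castLE h, fun {a b} hab => hab⟩, Fin.castLE_injective h⟩⟩
  rcases hG (R.comap (Fin.castLE h)) with h1 | h1
  · exact Or.inl (key R h1)
  · refine Or.inr (key Rᶜ (h1.trans ?_))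
    refine ⟨⟨⟨id, ?_⟩, Function.injective_id⟩⟩
    intro a b hab
    rw [SimpleGraph.compl_adj] at hab
    simp only [SimpleGraph.comap_adj, SimpleGraph.compl_adj, id]
    exact ⟨fun he => hab.1 (Fin.castLE_injective h he), hab.2⟩

/-- The star forest with stars `K_{1, s 0}, ..., K_{1, s (k-1)}`; the vertex `⟨i, none⟩`
is the centre of the star number `i`. -/
def starForest (k : ℕ) (s : ℕ → ℕ) : SimpleGraph (Σ i : Fin k, Option (Fin (s i))) where
  Adj x y := x.1 = y.1 ∧ ((x.2 = none ∧ y.2 ≠ none) ∨ (x.2 ≠ none ∧ y.2 = none))
  symm := ⟨by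
    rintro x y ⟨h1, h2⟩
    exact ⟨h1.symm, h2.elim (fun h => Or.inr ⟨h.2, h.1⟩) (fun h => Or.inl ⟨h.2, h.1⟩)⟩⟩
  loopless := ⟨by
    rintro x ⟨_, h⟩
    rcases h with h | h
    · exact h.2 h.1
    · exact h.1 h.2⟩

section Packing

variable {V : Type} [Fintype V]

/-- Freeing a vertex `v` which is not a centre: the labels only decrease, the leaf sets keep
their sizes, and `v` gets the label `0`. -/
theorem remove_lemma (R : SimpleGraph V) (i : ℕ) (c : ℕ → V) (lam : V → ℕ)
    (h1 : ∀ w, lam w ≤ i + 1)
    (h3 : ∀ l < i, ∀ w, lam w = l + 1 → R.Adj (c l) w)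
    (h4 : ∀ l < i, ∃ w, R.Adj (c l) w ∧ l + 1 < lam w) :
    ∀ (d : ℕ) (v : V), lam v ≠ 0 → i + 1 - lam v = d →
      ∃ mu : V → ℕ, (∀ w, mu w ≤ lam w) ∧ mu v = 0 ∧
        (∀ w, w ≠ v → lam w ≤ lam v → mu w = lam w) ∧
        (∀ w, w ≠ v → lam w ≠ 0 → mu w ≠ 0) ∧
        (∀ l < i, ∀ w, mu w = l + 1 → R.Adj (c l) w) ∧
        (∀ l < i, (univ.filter (fun w => mu w = l + 1)).card
            = (univ.filter (fun w => lam w = l + 1)).card) ∧
        (∀ l, (univ.filter (fun w => l < lam w)).card
            ≤ (univ.filter (fun w => l < mu w)).card + 1) := by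
  intro d
  induction d using Nat.strong_induction_on with
  | _ d ih =>
    intro v hv hd
    rcases Nat.lt_or_ge (lam v) (i + 1) with hlt | hge
    · -- v is a leaf
      obtain ⟨j, hj⟩ : ∃ j, lam v = j + 1 := ⟨lam v - 1, by omega⟩
      have hji : j < i := by omega
      obtain ⟨r, hr1, hr2⟩ := h4 j hji
      have hrv : r ≠ v := by
        rintro rfl
        omega
      have hri := h1 r
      obtain ⟨nu, n1, n2, n3, n4, n5, n6, n7⟩ :=
        ih (i + 1 - lam r) (by omega) r (by omega) rfl
      have hnv : nu v = j + 1 := by
        rw [n3 v hrv.symm (by omega), hj]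
      refine ⟨fun w => nu (Equiv.swap r v w), ?_, ?_, ?_, ?_, ?_, ?_, ?_⟩
      · intro w
        by_cases hwr : w = r
        · subst hwr
          simp only [Equiv.swap_apply_left, hnv]
          omega
        · by_cases hwv : w = v
          · subst hwv
            simp only [Equiv.swap_apply_right, n2]
            omega
          · simp only [Equiv.swap_apply_of_ne_of_ne hwr hwv]
            exact n1 w
      · simp only [Equiv.swap_apply_right, n2]
      · intro w hwv hle
        have hwr : w ≠ r := by
          rintro rfl
          omega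
        simp only [Equiv.swap_apply_of_ne_of_ne hwr hwv]
        exact n3 w hwr (by omega)
      · intro w hwv hw0
        by_cases hwr : w = r
        · subst hwr
          simp only [Equiv.swap_apply_left, hnv]
          omega
        · simp only [Equiv.swap_apply_of_ne_of_ne hwr hwv]
          exact n4 w hwr hw0
      · intro l hl w hw
        by_cases hwr : w = r
        · subst hwr
          simp only [Equiv.swap_apply_left, hnv] at hw
          have : l = j := by omega
          subst this
          exact hr1
        · by_cases hwv : w = v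
          · subst hwv
            simp only [Equiv.swap_apply_right, n2] at hw
            omega
          · simp only [Equiv.swap_apply_of_ne_of_ne hwr hwv] at hw
            exact n5 l hl w hw
      · intro l hl
        rw [← n6 l hl]
        refine Finset.card_bij (fun w _ => Equiv.swap r v w) ?_ ?_ ?_
        · intro a ha
          simpa using ha
        · intro a _ b _ hab
          exact (Equiv.swap r v).injective hab
        · intro b hb
          refine ⟨Equiv.swap r v b, ?_, by simp⟩
          simpa using hb
      · intro l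
        refine (n7 l).trans ?_
        have : (univ.filter (fun w => l < nu w)).card
            = (univ.filter (fun w => l < nu (Equiv.swap r v w))).card := by
          symm
          refine Finset.card_bij (fun w _ => Equiv.swap r v w) ?_ ?_ ?_
          · intro a ha
            simpa using ha
          · intro a _ b _ hab
            exact (Equiv.swap r v).injective hab
          · intro b hb
            refine ⟨Equiv.swap r v b, ?_, by simp⟩
            simpa using hb
        rw [this]
    · -- v is uncovered
      have hvi : lam v = i + 1 := le_antisymm (h1 v) hge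
      refine ⟨fun w => if w = v then 0 else lam w, ?_, ?_, ?_, ?_, ?_, ?_, ?_⟩
      · intro w
        by_cases hwv : w = v <;> simp [hwv]
      · simp
      · intro w hwv _
        simp [hwv]
      · intro w hwv h0
        simpa [hwv] using h0
      · intro l hl w hw
        by_cases hwv : w = v
        · simp [hwv] at hw
        · simp only [hwv, if_false] at hw
          exact h3 l hl w hw
      · intro l hl
        congr 1
        ext w
        by_cases hwv : w = v
        · subst hwv
          simp [hvi]
          omega
        · simp [hwv]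
      · intro l
        have hsub : (univ.filter (fun w => l < lam w))
            ⊆ insert v (univ.filter (fun w => l < (if w = v then 0 else lam w))) := by
          intro w hw
          by_cases hwv : w = v
          · simp [hwv]
          · simp only [mem_filter, mem_univ, true_and] at hw
            simp [hwv, hw]
        exact (Finset.card_le_card hsub).trans (Finset.card_insert_le _ _)

/-- A packing of the first `i` stars. Label `0` marks a centre, label `l + 1` with
`l < i` marks a leaf of the star number `l`, label `i + 1` marks a vertex not used. -/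
structure Pack (R : SimpleGraph V) (k t : ℕ) (s ρ : ℕ → ℕ) (i : ℕ)
    (c : ℕ → V) (lam : V → ℕ) : Prop where
  le : ∀ w, lam w ≤ i + 1
  zero : ∀ w, lam w = 0 ↔ ∃ l < i, w = c l
  inj : ∀ a < i, ∀ b < i, c a = c b → a = b
  adj : ∀ l < i, ∀ w, lam w = l + 1 → R.Adj (c l) w
  size : ∀ l < i, (univ.filter (fun w => lam w = l + 1)).card = s l
  free : ρ i + t ≤ (univ.filter (fun w => lam w = i + 1)).card
  extra : ∀ l < i, k - i ≤ (univ.filter (fun w => R.Adj (c l) w ∧ l + 1 < lam w)).card

/-- The packing process is stuck at stage `i`. -/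
def Stuck (R : SimpleGraph V) (k t : ℕ) (s ρ : ℕ → ℕ) (i : ℕ) : Prop :=
  ∃ C U : Finset V, C.card = i ∧ ρ i + t ≤ U.card ∧
    ∀ v, v ∉ C → (U.filter (fun w => R.Adj v w)).card < s i + (k - i)

theorem pack_zero (R : SimpleGraph V) (k t : ℕ) (s ρ : ℕ → ℕ) (v₀ : V)
    (hV : ρ 0 + t ≤ Fintype.card V) :
    Pack R k t s ρ 0 (fun _ => v₀) (fun _ => 1) where
  le := by simp
  zero := by simp
  inj := by simp
  adj := by simp
  size := by simp
  free := by simpa using hV
  extra := by simp

theorem card_zero_eq {R : SimpleGraph V} {k t : ℕ} {s ρ : ℕ → ℕ} {i : ℕ}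
    {c : ℕ → V} {lam : V → ℕ} (h : Pack R k t s ρ i c lam) :
    (univ.filter (fun w => lam w = 0)).card = i := by
  have : univ.filter (fun w => lam w = 0) = (range i).image c := by
    ext w
    simp only [mem_filter, mem_univ, true_and, mem_image, mem_range]
    rw [h.zero w]
    constructor
    · rintro ⟨l, hl, rfl⟩
      exact ⟨l, hl, rfl⟩
    · rintro ⟨l, hl, rfl⟩
      exact ⟨l, hl, rfl⟩
  rw [this, Finset.card_image_of_injOn, card_range]
  intro a ha b hb hab
  exact h.inj a (by simpa using ha) b (by simpa using hb) hab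

theorem filter_loss {α : Type*} (A B : Finset α) (hBA : B ⊆ A) (h : A.card ≤ B.card + 1)
    (P : α → Prop) : (A.filter P).card ≤ (B.filter P).card + 1 := by
  have h1 : A.filter P ⊆ B.filter P ∪ (A \ B) := by
    intro x hx
    simp only [mem_filter] at hx
    simp only [mem_union, mem_filter, mem_sdiff]
    by_cases hxB : x ∈ B
    · exact Or.inl ⟨hxB, hx.2⟩
    · exact Or.inr ⟨hx.1, hxB⟩
  have h2 := (Finset.card_le_card h1).trans (Finset.card_union_le _ _)
  rw [Finset.card_sdiff_of_subset hBA] at h2
  omega

theorem pack_step (R : SimpleGraph V) (k t : ℕ) (s ρ : ℕ → ℕ) (i : ℕ) (hik : i < k)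
    (hρ : ρ i = ρ (i + 1) + s i + 1)
    (c : ℕ → V) (lam : V → ℕ) (h : Pack R k t s ρ i c lam) :
    (∃ c' lam', Pack R k t s ρ (i + 1) c' lam') ∨ Stuck R k t s ρ i := by
  by_cases hst : ∀ v, v ∉ univ.filter (fun w => lam w = 0) →
      ((univ.filter (fun w => lam w = i + 1)).filter (fun w => R.Adj v w)).card < s i + (k - i)
  · exact Or.inr ⟨_, _, card_zero_eq h, h.free, hst⟩
  left
  push Not at hst
  obtain ⟨v, hv0, hdeg⟩ := hst
  have hv : lam v ≠ 0 := by simpa using hv0
  have h4 : ∀ l < i, ∃ w, R.Adj (c l) w ∧ l + 1 < lam w := by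
    intro l hl
    have := h.extra l hl
    have hpos : 0 < (univ.filter (fun w => R.Adj (c l) w ∧ l + 1 < lam w)).card := by omega
    obtain ⟨w, hw⟩ := Finset.card_pos.mp hpos
    exact ⟨w, by simpa using hw⟩
  obtain ⟨mu, m1, m2, m3, m4, m5, m6, m7⟩ :=
    remove_lemma R i c lam h.le h.adj h4 _ v hv rfl
  -- uncovered after removal
  have hfree : ρ i + t ≤ (univ.filter (fun w => mu w = i + 1)).card + 1 := by
    have h7 := m7 i
    have e1 : univ.filter (fun w => i < lam w) = univ.filter (fun w => lam w = i + 1) := by
      ext w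
      have := h.le w
      simp only [mem_filter, mem_univ, true_and]
      omega
    have e2 : univ.filter (fun w => i < mu w) = univ.filter (fun w => mu w = i + 1) := by
      ext w
      have := h.le w
      have := m1 w
      simp only [mem_filter, mem_univ, true_and]
      omega
    rw [e1, e2] at h7
    exact h.free.trans h7
  have hmui : ∀ w, mu w ≤ i + 1 := fun w => (m1 w).trans (h.le w)
  -- degree after removal
  have hdeg' : s i + (k - i) ≤
      ((univ.filter (fun w => mu w = i + 1)).filter (fun w => R.Adj v w)).card + 1 := by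
    refine hdeg.trans (filter_loss _ _ ?_ ?_ _)
    · intro w hw
      simp only [mem_filter, mem_univ, true_and] at hw ⊢
      have := h.le w
      have := m1 w
      omega
    · have h7 := m7 i
      have e1 : univ.filter (fun w => i < lam w) = univ.filter (fun w => lam w = i + 1) := by
        ext w
        have := h.le w
        simp only [mem_filter, mem_univ, true_and]
        omega
      have e2 : univ.filter (fun w => i < mu w) = univ.filter (fun w => mu w = i + 1) := by
        ext w
        have := h.le w
        have := m1 w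
        simp only [mem_filter, mem_univ, true_and]
        omega
      rw [e1, e2] at h7
      exact h7
  obtain ⟨T, hTsub, hTcard⟩ := Finset.exists_subset_card_eq
    (show s i ≤ ((univ.filter (fun w => mu w = i + 1)).filter (fun w => R.Adj v w)).card by omega)
  have hT1 : ∀ w ∈ T, mu w = i + 1 := by
    intro w hw
    have := hTsub hw
    simp only [mem_filter, mem_univ, true_and] at this
    exact this.1
  have hT2 : ∀ w ∈ T, R.Adj v w := by
    intro w hw
    have := hTsub hw
    simp only [mem_filter, mem_univ, true_and] at this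
    exact this.2
  have hcv : ∀ l < i, c l ≠ v := by
    intro l hl hcl
    exact hv ((h.zero v).mpr ⟨l, hl, hcl.symm⟩)
  -- new labels
  set nu : V → ℕ := fun w => if mu w = i + 1 ∧ w ∉ T then i + 2 else mu w with hnu
  have nu1 : ∀ w, mu w = i + 1 → w ∉ T → nu w = i + 2 := by
    intro w h1 h2
    simp [hnu, h1, h2]
  have nu2 : ∀ w, w ∈ T → nu w = i + 1 := by
    intro w h1
    simp [hnu, h1, hT1 w h1]
  have nu3 : ∀ w, mu w ≤ i → nu w = mu w := by
    intro w h1
    have : mu w ≠ i + 1 := by omega
    simp [hnu, this]
  refine ⟨fun l => if l = i then v else c l, nu, ?_, ?_, ?_, ?_, ?_, ?_, ?_⟩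
  · intro w
    have := hmui w
    simp only [hnu]
    split_ifs <;> omega
  · intro w
    have hmuz : nu w = 0 ↔ mu w = 0 := by
      by_cases h1 : mu w = i + 1
      · by_cases hwT : w ∈ T
        · rw [nu2 w hwT]
          omega
        · rw [nu1 w h1 hwT]
          omega
      · have := hmui w
        rw [nu3 w (by omega)]
    rw [hmuz]
    constructor
    · intro hw
      by_cases hwv : w = v
      · exact ⟨i, by omega, by simp [hwv]⟩
      · have : lam w = 0 := by
          by_contra hne
          exact m4 w hwv hne hw
        obtain ⟨l, hl, hwl⟩ := (h.zero w).mp this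
        refine ⟨l, by omega, ?_⟩
        have : l ≠ i := by omega
        simp [this, hwl]
    · rintro ⟨l, hl, hwl⟩
      by_cases hli : l = i
      · simp only [hli, if_true] at hwl
        rw [hwl, m2]
      · simp only [hli, if_false] at hwl
        have : lam w = 0 := (h.zero w).mpr ⟨l, by omega, hwl⟩
        have := m1 w
        omega
  · intro a ha b hb hab
    by_cases ha' : a = i
    · by_cases hb' : b = i
      · omega
      · simp only [ha', hb', if_true, if_false] at hab
        exact absurd hab.symm (hcv b (by omega))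
    · by_cases hb' : b = i
      · simp only [ha', hb', if_true, if_false] at hab
        exact absurd hab (hcv a (by omega))
      · simp only [ha', hb', if_false] at hab
        exact h.inj a (by omega) b (by omega) hab
  · intro l hl w hw
    by_cases hli : l = i
    · subst hli
      simp only [if_true]
      by_cases hwT : w ∈ T
      · exact hT2 w hwT
      · exfalso
        by_cases hmw : mu w = l + 1
        · have := nu1 w hmw hwT
          omega
        · have := hmui w
          have := nu3 w (by omega)
          omega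
    · simp only [hli, if_false]
      have hl' : l < i := by omega
      have hmw : mu w ≤ i := by
        by_contra hcon
        have : mu w = i + 1 := by
          have := hmui w
          omega
        by_cases hwT : w ∈ T
        · have := nu2 w hwT
          omega
        · have := nu1 w this hwT
          omega
      have := nu3 w hmw
      exact m5 l hl' w (by omega)
  · intro l hl
    by_cases hli : l = i
    · subst hli
      have : univ.filter (fun w => nu w = l + 1) = T := by
        ext w
        simp only [mem_filter, mem_univ, true_and]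
        constructor
        · intro hw
          by_contra hwT
          by_cases hmw : mu w = l + 1
          · have := nu1 w hmw hwT
            omega
          · have := hmui w
            have := nu3 w (by omega)
            omega
        · exact nu2 w
      rw [this, hTcard]
    · have hl' : l < i := by omega
      rw [← h.size l hl', ← m6 l hl']
      congr 1
      ext w
      simp only [mem_filter, mem_univ, true_and]
      by_cases hmw : mu w = i + 1
      · by_cases hwT : w ∈ T
        · have := nu2 w hwT
          omega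
        · have := nu1 w hmw hwT
          omega
      · have := hmui w
        rw [nu3 w (by omega)]
  · have e : (univ.filter (fun w => mu w = i + 1)) \ T
        = univ.filter (fun w => nu w = i + 1 + 1) := by
      ext w
      simp only [mem_sdiff, mem_filter, mem_univ, true_and]
      constructor
      · rintro ⟨h1, h2⟩
        exact nu1 w h1 h2
      · intro hw
        by_cases hmw : mu w = i + 1
        · refine ⟨hmw, ?_⟩
          intro hwT
          have := nu2 w hwT
          omega
        · have := hmui w
          have := nu3 w (by omega)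
          omega
    rw [← e, Finset.card_sdiff_of_subset (hTsub.trans (Finset.filter_subset _ _)), hTcard]
    omega
  · intro l hl
    by_cases hli : l = i
    · subst hli
      simp only [if_true]
      have hsub : ((univ.filter (fun w => mu w = l + 1)).filter (fun w => R.Adj v w)) \ T
          ⊆ univ.filter (fun w => R.Adj v w ∧ l + 1 < nu w) := by
        intro w hw
        simp only [mem_sdiff, mem_filter, mem_univ, true_and] at hw ⊢
        refine ⟨hw.1.2, ?_⟩
        rw [nu1 w hw.1.1 hw.2]
        omega
      have := Finset.card_le_card hsub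
      rw [Finset.card_sdiff_of_subset hTsub, hTcard] at this
      omega
    · have hl' : l < i := by omega
      simp only [hli, if_false]
      have hx := h.extra l hl'
      have hloss := filter_loss (univ.filter (fun w => l + 1 < lam w))
        (univ.filter (fun w => l + 1 < mu w)) (by
          intro w hw
          simp only [mem_filter, mem_univ, true_and] at hw ⊢
          have := m1 w
          omega) (m7 (l + 1)) (fun w => R.Adj (c l) w)
      have e1 : (univ.filter (fun w => l + 1 < lam w)).filter (fun w => R.Adj (c l) w)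
          = univ.filter (fun w => R.Adj (c l) w ∧ l + 1 < lam w) := by
        ext w
        simp only [mem_filter, mem_univ, true_and]
        tauto
      have e2 : (univ.filter (fun w => l + 1 < mu w)).filter (fun w => R.Adj (c l) w)
          = univ.filter (fun w => R.Adj (c l) w ∧ l + 1 < nu w) := by
        ext w
        simp only [mem_filter, mem_univ, true_and]
        have : l + 1 < mu w ↔ l + 1 < nu w := by
          by_cases hmw : mu w = i + 1
          · by_cases hwT : w ∈ T
            · have := nu2 w hwT
              omega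
            · have := nu1 w hmw hwT
              omega
          · have := hmui w
            rw [nu3 w (by omega)]
        tauto
      rw [e1, e2] at hloss
      omega

theorem pack_or_stuck (R : SimpleGraph V) (k t : ℕ) (s ρ : ℕ → ℕ)
    (hρ : ∀ i < k, ρ i = ρ (i + 1) + s i + 1)
    (hV : ρ 0 + t ≤ Fintype.card V) (v₀ : V) :
    ∀ i ≤ k, (∃ c lam, Pack R k t s ρ i c lam) ∨ ∃ j < k, Stuck R k t s ρ j := by
  intro i
  induction i with
  | zero => intro _; exact Or.inl ⟨_, _, pack_zero R k t s ρ v₀ hV⟩
  | succ i ih =>
    intro hi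
    rcases ih (by omega) with ⟨c, lam, h⟩ | h
    · rcases pack_step R k t s ρ i (by omega) (hρ i (by omega)) c lam h with h' | h'
      · exact Or.inl h'
      · exact Or.inr ⟨i, by omega, h'⟩
    · exact Or.inr h

/-- A colour and the complementary colour cannot both be stuck. -/
theorem not_both_stuck (R B : SimpleGraph V) (hRB : ∀ v u, v ≠ u → ¬ R.Adj u v → B.Adj v u)
    (k t : ℕ) (s ρ : ℕ → ℕ)
    (hc : ∀ i < k, 2 * (s i + (k - i)) + k ≤ ρ i + t + 1)
    (i m : ℕ) (hi : i < k) (hm : m < k)
    (h1 : Stuck R k t s ρ i) (h2 : Stuck B k t s ρ m) : False := by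
  obtain ⟨C, A, hC, hA, h1⟩ := h1
  obtain ⟨C', U, hC', hU, h2⟩ := h2
  set A' := A \ C' with hA'
  set U' := U \ C with hU'
  have cA : A.card ≤ A'.card + m := by
    have : A.card - C'.card ≤ A'.card := Finset.le_card_sdiff C' A
    omega
  have cU : U.card ≤ U'.card + i := by
    have : U.card - C.card ≤ U'.card := Finset.le_card_sdiff C U
    omega
  have e1 := hc i hi
  have e2 := hc m hm
  have a1 : 2 * (s i + (k - i)) ≤ A'.card := by omega
  have a2 : 2 * (s m + (k - m)) ≤ U'.card := by omega
  -- count red pairs
  have r1 : ((A' ×ˢ U').filter (fun p => R.Adj p.2 p.1)).card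
      ≤ U'.card * (s i + (k - i) - 1) := by
    have : ((A' ×ˢ U').filter (fun p => R.Adj p.2 p.1)).card
        = ∑ u ∈ U', (A'.filter (fun v => R.Adj u v)).card := by
      rw [Finset.card_filter, Finset.sum_product_right]
      refine Finset.sum_congr rfl fun u _ => ?_
      rw [Finset.card_filter]
    rw [this, ← smul_eq_mul]
    refine Finset.sum_le_card_nsmul _ _ _ fun u hu => ?_
    have hu' : u ∉ C := (Finset.mem_sdiff.mp hu).2
    have := h1 u hu'
    have h3 : (A'.filter (fun v => R.Adj u v)).card ≤ (A.filter (fun v => R.Adj u v)).card :=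
      Finset.card_le_card (Finset.filter_subset_filter _ Finset.sdiff_subset)
    omega
  have r2 : ((A' ×ˢ U').filter (fun p => B.Adj p.1 p.2)).card
      ≤ A'.card * (s m + (k - m) - 1) := by
    have : ((A' ×ˢ U').filter (fun p => B.Adj p.1 p.2)).card
        = ∑ v ∈ A', (U'.filter (fun u => B.Adj v u)).card := by
      rw [Finset.card_filter, Finset.sum_product]
      refine Finset.sum_congr rfl fun u _ => ?_
      rw [Finset.card_filter]
    rw [this, ← smul_eq_mul]
    refine Finset.sum_le_card_nsmul _ _ _ fun v hv => ?_
    have hv' : v ∉ C' := (Finset.mem_sdiff.mp hv).2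
    have := h2 v hv'
    have h3 : (U'.filter (fun u => B.Adj v u)).card ≤ (U.filter (fun u => B.Adj v u)).card :=
      Finset.card_le_card (Finset.filter_subset_filter _ Finset.sdiff_subset)
    omega
  have r3 : ((A' ×ˢ U').filter (fun p => p.1 = p.2)).card ≤ A'.card := by
    refine Finset.card_le_card_of_injOn (fun p => p.1) ?_ ?_
    · intro p hp
      simp only [coe_filter, Set.mem_ofPred_eq, mem_product] at hp
      exact hp.1.1
    · intro p hp q hq hpq
      simp only [coe_filter, Set.mem_ofPred_eq, mem_product] at hp hq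
      ext
      · exact hpq
      · rw [← hp.2, ← hq.2]
        exact hpq
  have r4 : A' ×ˢ U' ⊆ (A' ×ˢ U').filter (fun p => R.Adj p.2 p.1) ∪
      ((A' ×ˢ U').filter (fun p => B.Adj p.1 p.2) ∪ (A' ×ˢ U').filter (fun p => p.1 = p.2)) := by
    intro p hp
    simp only [mem_union, mem_filter, hp, true_and]
    by_cases h : p.1 = p.2
    · exact Or.inr (Or.inr h)
    · by_cases h' : R.Adj p.2 p.1
      · exact Or.inl h'
      · refine Or.inr (Or.inl ?_)
        exact hRB _ _ h h'
  have r5 : A'.card * U'.card ≤ U'.card * (s i + (k - i) - 1) + (A'.card * (s m + (k - m) - 1)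
      + A'.card) := by
    have := Finset.card_le_card r4
    rw [Finset.card_product] at this
    refine this.trans ((Finset.card_union_le _ _).trans ?_)
    refine Nat.add_le_add r1 ((Finset.card_union_le _ _).trans (Nat.add_le_add r2 r3))
  have p1 : 1 ≤ s i + (k - i) := by omega
  have p2 : 1 ≤ s m + (k - m) := by omega
  obtain ⟨x, hx⟩ : ∃ x, s i + (k - i) = x + 1 := ⟨s i + (k - i) - 1, by omega⟩
  obtain ⟨y, hy⟩ : ∃ y, s m + (k - m) = y + 1 := ⟨s m + (k - m) - 1, by omega⟩
  rw [hx] at a1 r5
  rw [hy] at a2 r5
  simp only [Nat.add_sub_cancel] at r5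
  nlinarith [Nat.mul_le_mul_left (A'.card) a2, Nat.mul_le_mul_left (U'.card) a1]

theorem contained_of_pack (R : SimpleGraph V) (k t : ℕ) (s ρ : ℕ → ℕ)
    (c : ℕ → V) (lam : V → ℕ) (h : Pack R k t s ρ k c lam) :
    (starForest k s).IsContained R := by
  have hex : ∀ i : Fin k, Nonempty (Fin (s i) ≃ {w // w ∈ univ.filter (fun w => lam w = (i : ℕ) + 1)}) := by
    intro i
    refine ⟨Fintype.equivOfCardEq ?_⟩
    rw [Fintype.card_fin, Fintype.card_coe, h.size i i.2]
  let e := fun i => Classical.choice (hex i)
  let φ : (Σ i : Fin k, Option (Fin (s i))) → V := fun x =>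
    match x with
    | ⟨i, none⟩ => c i
    | ⟨i, some a⟩ => (e i a : V)
  have hlab : ∀ (i : Fin k) (a : Fin (s i)), lam (e i a : V) = (i : ℕ) + 1 := by
    intro i a
    exact (Finset.mem_filter.mp (e i a).2).2
  have hzero : ∀ i : Fin k, lam (c i) = 0 := fun i => (h.zero _).mpr ⟨i, i.2, rfl⟩
  refine ⟨⟨⟨φ, ?_⟩, ?_⟩⟩
  · rintro ⟨i, a⟩ ⟨j, b⟩ ⟨h1, h2⟩
    simp only at h1
    subst h1
    rcases a with _ | a
    · rcases b with _ | b
      · simp at h2
      · exact h.adj i i.2 _ (hlab i b)
    · rcases b with _ | b
      · exact (h.adj i i.2 _ (hlab i a)).symm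
      · simp at h2
  · rintro ⟨i, a⟩ ⟨j, b⟩ hab
    change φ ⟨i, a⟩ = φ ⟨j, b⟩ at hab
    rcases a with _ | a
    · rcases b with _ | b
      · have : (i : ℕ) = j := h.inj i i.2 j j.2 hab
        have : i = j := Fin.ext this
        subst this
        rfl
      · exfalso
        have h1 := hzero i
        have h2 := hlab j b
        have h3 : c i = (e j b : V) := hab
        rw [h3, h2] at h1
        omega
    · rcases b with _ | b
      · exfalso
        have h1 := hzero j
        have h2 := hlab i a
        have h3 : (e i a : V) = c j := hab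
        rw [← h3, h2] at h1
        omega
      · have h1 := hlab i a
        have h2 := hlab j b
        have h3 : (e i a : V) = (e j b : V) := hab
        rw [h3, h2] at h1
        have : i = j := Fin.ext (by omega)
        subst this
        have h4 : e i a = e i b := Subtype.ext h3
        rw [(e i).injective h4]

theorem ramsey_starForest (k t : ℕ) (s ρ : ℕ → ℕ)
    (hρ : ∀ i < k, ρ i = ρ (i + 1) + s i + 1)
    (hc : ∀ i < k, 2 * (s i + (k - i)) + k ≤ ρ i + t + 1)
    (hV : ρ 0 + t ≤ Fintype.card V) (hpos : 0 < Fintype.card V) (R : SimpleGraph V) :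
    (starForest k s).IsContained R ∨ (starForest k s).IsContained Rᶜ := by
  obtain ⟨v₀⟩ : Nonempty V := Fintype.card_pos_iff.mp hpos
  rcases pack_or_stuck R k t s ρ hρ hV v₀ k le_rfl with ⟨c, lam, h⟩ | ⟨i, hi, h1⟩
  · exact Or.inl (contained_of_pack R k t s ρ c lam h)
  · rcases pack_or_stuck Rᶜ k t s ρ hρ hV v₀ k le_rfl with ⟨c, lam, h⟩ | ⟨m, hm, h2⟩
    · exact Or.inr (contained_of_pack Rᶜ k t s ρ c lam h)
    · exact (not_both_stuck R Rᶜ (fun v u hvu hR => by
        rw [SimpleGraph.compl_adj]
        exact ⟨hvu, fun h => hR h.symm⟩) k t s ρ hc i m hi hm h1 h2).elim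

theorem card_starForest (s ρ : ℕ → ℕ) : ∀ k : ℕ,
    (∀ i < k, ρ i = ρ (i + 1) + s i + 1) →
    Fintype.card (Σ i : Fin k, Option (Fin (s i))) + ρ k = ρ 0 := by
  intro k hk
  rw [Fintype.card_sigma]
  simp only [Fintype.card_option, Fintype.card_fin]
  rw [Fin.sum_univ_eq_sum_range (fun i => s i + 1) k]
  induction k with
  | zero => simp
  | succ k ih =>
    rw [Finset.sum_range_succ, ← ih (fun i hi => hk i (by omega)), hk k (by omega)]
    omega

end Packing

theorem arrows_of_bound (k N : ℕ) (s : ℕ → ℕ) (hk : 1 ≤ k)
    (hN : ∀ i < k, ∑ l ∈ range i, s l + 2 * s i + (3 * k - 1 - i) ≤ N) :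
    Arrows N (starForest k s) := by
  set ρ : ℕ → ℕ := fun i => ∑ l ∈ range (k - i), (s (k - 1 - l) + 1) with hρ
  have hρ1 : ∀ i < k, ρ i = ρ (i + 1) + s i + 1 := by
    intro i hi
    simp only [hρ]
    rw [show k - i = (k - (i + 1)) + 1 by omega, Finset.sum_range_succ,
      show k - 1 - (k - (i + 1)) = i by omega]
    ring
  have hρk : ρ k = 0 := by simp [hρ]
  have hσ : ∀ i ≤ k, ρ 0 = ρ i + (∑ l ∈ range i, s l + i) := by
    intro i
    induction i with
    | zero => intro _; simp
    | succ i ih =>
      intro hi
      rw [ih (by omega), hρ1 i (by omega), Finset.sum_range_succ]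
      ring
  have hlast : ρ 0 ≤ N := by
    have h1 := hN (k - 1) (by omega)
    have h2 := hσ (k - 1) (by omega)
    have h3 := hρ1 (k - 1) (by omega)
    rw [show k - 1 + 1 = k by omega, hρk] at h3
    omega
  intro R
  obtain ⟨t, ht⟩ : ∃ t, N = ρ 0 + t := ⟨N - ρ 0, by omega⟩
  refine ramsey_starForest k t s ρ hρ1 ?_ (by simp [ht]) ?_ R
  · intro i hi
    have h1 := hN i hi
    have h2 := hσ i hi.le
    omega
  · have h1 := hN 0 (by omega)
    simp only [Fintype.card_fin]
    omega

theorem starForest_adj (k : ℕ) (s : ℕ → ℕ) (i : Fin k) (a : Fin (s i)) :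
    (starForest k s).Adj ⟨i, none⟩ ⟨i, some a⟩ :=
  ⟨rfl, Or.inl ⟨rfl, by simp⟩⟩

theorem card_vertices (k : ℕ) (s : ℕ → ℕ) :
    Fintype.card (Σ i : Fin k, Option (Fin (s i))) = ∑ l ∈ range k, s l + k := by
  rw [Fintype.card_sigma]
  simp only [Fintype.card_option, Fintype.card_fin]
  rw [Fin.sum_univ_eq_sum_range (fun i => s i + 1) k, Finset.sum_add_distrib]
  simp

/-- Dropping stars. -/
theorem Arrows.sub {N k j : ℕ} (h : j ≤ k) {s : ℕ → ℕ} (hA : Arrows N (starForest k s)) :
    Arrows N (starForest j s) := by
  have hc : (starForest j s).IsContained (starForest k s) := by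
    refine ⟨⟨⟨fun x => ⟨Fin.castLE h x.1, x.2⟩, ?_⟩, ?_⟩⟩
    · rintro ⟨i, a⟩ ⟨i', a'⟩ ⟨h1, h2⟩
      obtain rfl : i = i' := h1
      exact ⟨rfl, h2⟩
    · rintro ⟨i, a⟩ ⟨i', a'⟩ hab
      have hab' : (⟨Fin.castLE h i, a⟩ : Σ i : Fin k, Option (Fin (s i)))
          = ⟨Fin.castLE h i', a'⟩ := hab
      have h1 : i = i' := Fin.castLE_injective h (congrArg Sigma.fst hab')
      subst h1
      simpa using hab'
  intro R
  rcases hA R with h1 | h1
  · exact Or.inl (hc.trans h1)
  · exact Or.inr (hc.trans h1)

/-- The colouring with a set of `m` vertices joined to everything in red. -/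
theorem not_arrows_cover (k : ℕ) (hk : 1 ≤ k) (s : ℕ → ℕ) (hs : ∀ i < k, 1 ≤ s i) :
    ¬ Arrows (∑ l ∈ range k, s l + k + (k - 1) - 1) (starForest k s) := by
  set n := ∑ l ∈ range k, s l + k with hn
  have hcard := card_vertices k s
  rw [← hn] at hcard
  have hnb : ∀ x : (Σ i : Fin k, Option (Fin (s i))), ∃ y, (starForest k s).Adj x y := by
    rintro ⟨i, x⟩
    rcases x with _ | x
    · exact ⟨⟨i, some ⟨0, hs i i.2⟩⟩, starForest_adj k s i _⟩
    · exact ⟨⟨i, none⟩, (starForest_adj k s i x).symm⟩
  intro hA
  let R : SimpleGraph (Fin (n + (k - 1) - 1)) :=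
    { Adj := fun x y => x ≠ y ∧ ((x : ℕ) < k - 1 ∨ (y : ℕ) < k - 1)
      symm := ⟨fun x y h => ⟨h.1.symm, h.2.symm⟩⟩
      loopless := ⟨fun x h => h.1 rfl⟩ }
  rcases hA R with hφ | hφ
  · obtain ⟨φ⟩ := hφ
    have hinj : Function.Injective (fun x => φ x) := φ.injective
    -- every star has a vertex in the dominating set
    have hex : ∀ i : Fin k, ∃ a : Option (Fin (s i)), ((φ ⟨i, a⟩ : Fin _) : ℕ) < k - 1 := by
      intro i
      have h1 : R.Adj (φ ⟨i, none⟩) (φ ⟨i, some ⟨0, hs i i.2⟩⟩) :=
        φ.toHom.map_adj (starForest_adj k s i _)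
      rcases h1.2 with h | h
      · exact ⟨_, h⟩
      · exact ⟨_, h⟩
    choose a ha using hex
    have : (univ : Finset (Fin k)).card ≤ (range (k - 1)).card := by
      refine Finset.card_le_card_of_injOn (fun i => ((φ ⟨i, a i⟩ : Fin _) : ℕ)) ?_ ?_
      · intro i _
        simpa using ha i
      · intro i _ j _ hij
        have := hinj (Fin.ext hij)
        simp only [Sigma.mk.injEq] at this
        exact this.1
    simp at this
    omega
  · obtain ⟨φ⟩ := hφ
    have hinj : Function.Injective (fun x => φ x) := φ.injective
    have hge : ∀ x, k - 1 ≤ ((φ x : Fin _) : ℕ) := by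
      intro x
      obtain ⟨y, hxy⟩ := hnb x
      have h1 : Rᶜ.Adj (φ x) (φ y) := φ.toHom.map_adj hxy
      rw [SimpleGraph.compl_adj] at h1
      by_contra hlt
      exact h1.2 ⟨h1.1, Or.inl (by omega)⟩
    have : (univ : Finset (Σ i : Fin k, Option (Fin (s i)))).card ≤ (range (n - 1)).card := by
      refine Finset.card_le_card_of_injOn (fun x => ((φ x : Fin _) : ℕ) - (k - 1)) ?_ ?_
      · intro x _
        have h1 := hge x
        have h2 := (φ x).2
        simp only [coe_range, Set.mem_Iio]
        omega
      · intro x _ y _ hxy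
        have h1 := hge x
        have h2 := hge y
        refine hinj (Fin.ext ?_)
        simp only at hxy ⊢
        omega
    rw [card_univ, hcard, card_range] at this
    omega

/-- The colouring with two red cliques of sizes `y` and `x`. -/
theorem not_arrows_bip (k x y : ℕ) (hk : 2 ≤ k) (s : ℕ → ℕ) (hs : ∀ i < k, 1 ≤ s i)
    (hy : ∀ i < k, y ≤ s i) (hx1 : x < ∑ l ∈ range k, s l) :
    ¬ Arrows (x + y) (starForest k s) := by
  have hcard := card_vertices k s
  intro hA
  let R : SimpleGraph (Fin (x + y)) :=
    { Adj := fun u v => u ≠ v ∧ ((u : ℕ) < y ↔ (v : ℕ) < y)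
      symm := ⟨fun u v h => ⟨h.1.symm, h.2.symm⟩⟩
      loopless := ⟨fun u h => h.1 rfl⟩ }
  rcases hA R with hφ | hφ
  · obtain ⟨φ⟩ := hφ
    have hinj : Function.Injective (fun x => φ x) := φ.injective
    -- all vertices lie in the large clique
    have hside : ∀ (i : Fin k) (a : Option (Fin (s i))),
        (((φ ⟨i, a⟩ : Fin _) : ℕ) < y ↔ ((φ ⟨i, none⟩ : Fin _) : ℕ) < y) := by
      intro i a
      rcases a with _ | a
      · rfl
      · have h1 : R.Adj (φ ⟨i, none⟩) (φ ⟨i, some a⟩) :=
          φ.toHom.map_adj (starForest_adj k s i _)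
        exact h1.2.symm
    have hge : ∀ z, y ≤ ((φ z : Fin _) : ℕ) := by
      rintro ⟨i, a⟩
      by_contra hlt
      push Not at hlt
      have h0 := (hside i a).mp hlt
      have : (univ : Finset (Option (Fin (s i)))).card ≤ (range y).card := by
        refine Finset.card_le_card_of_injOn (fun b => ((φ ⟨i, b⟩ : Fin _) : ℕ)) ?_ ?_
        · intro b _
          simpa using (hside i b).mpr h0
        · intro b _ b' _ hbb
          have := hinj (Fin.ext hbb)
          simpa using this
      have h2 := hy i i.2
      simp at this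
      omega
    have : (univ : Finset (Σ i : Fin k, Option (Fin (s i)))).card ≤ (range x).card := by
      refine Finset.card_le_card_of_injOn (fun z => ((φ z : Fin _) : ℕ) - y) ?_ ?_
      · intro z _
        have h1 := hge z
        have h2 := (φ z).2
        simp only [coe_range, Set.mem_Iio]
        omega
      · intro z _ z' _ hzz
        have h1 := hge z
        have h2 := hge z'
        refine hinj (Fin.ext ?_)
        simp only at hzz ⊢
        omega
    rw [card_univ, hcard, card_range] at this
    omega
  · obtain ⟨φ⟩ := hφ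
    have hinj : Function.Injective (fun x => φ x) := φ.injective
    have hside : ∀ (i : Fin k) (a : Fin (s i)),
        ¬ (((φ ⟨i, none⟩ : Fin _) : ℕ) < y ↔ ((φ ⟨i, some a⟩ : Fin _) : ℕ) < y) := by
      intro i a hiff
      have h1 : Rᶜ.Adj (φ ⟨i, none⟩) (φ ⟨i, some a⟩) :=
        φ.toHom.map_adj (starForest_adj k s i _)
      rw [SimpleGraph.compl_adj] at h1
      exact h1.2 ⟨h1.1, hiff⟩
    -- all centres lie in the small side
    have hcen : ∀ i : Fin k, ((φ ⟨i, none⟩ : Fin _) : ℕ) < y := by
      intro i
      by_contra hge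
      have hleaf : ∀ a : Fin (s i), ((φ ⟨i, some a⟩ : Fin _) : ℕ) < y := by
        intro a
        by_contra h
        exact hside i a ⟨fun h' => absurd h' hge, fun h' => absurd h' h⟩
      -- another star
      obtain ⟨j, hj⟩ : ∃ j : Fin k, j ≠ i := by
        have : Nontrivial (Fin k) := Fin.nontrivial_iff_two_le.mpr hk
        exact exists_ne i
      obtain ⟨b, hb⟩ : ∃ b : Option (Fin (s j)), ((φ ⟨j, b⟩ : Fin _) : ℕ) < y := by
        by_cases h : ((φ ⟨j, none⟩ : Fin _) : ℕ) < y
        · exact ⟨_, h⟩
        · refine ⟨some ⟨0, hs j j.2⟩, ?_⟩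
          by_contra h'
          exact hside j ⟨0, hs j j.2⟩ ⟨fun h'' => absurd h'' h, fun h'' => absurd h'' h'⟩
      have : (univ : Finset (Option (Fin (s i)))).card ≤ (range y).card := by
        refine Finset.card_le_card_of_injOn (fun o => match o with
          | none => ((φ ⟨j, b⟩ : Fin _) : ℕ)
          | some a => ((φ ⟨i, some a⟩ : Fin _) : ℕ)) ?_ ?_
        · intro o _
          rcases o with _ | a
          · simpa using hb
          · simpa using hleaf a
        · intro o _ o' _ hoo
          rcases o with _ | a
          · rcases o' with _ | a'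
            · rfl
            · have := hinj (Fin.ext hoo)
              simp only [Sigma.mk.injEq] at this
              exact absurd this.1 hj
          · rcases o' with _ | a'
            · have := hinj (Fin.ext hoo)
              simp only [Sigma.mk.injEq] at this
              exact absurd this.1.symm hj
            · have := hinj (Fin.ext hoo)
              simpa using this
      have h2 := hy i i.2
      simp at this
      omega
    have hlf : ∀ (i : Fin k) (a : Fin (s i)), y ≤ ((φ ⟨i, some a⟩ : Fin _) : ℕ) := by
      intro i a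
      by_contra h
      push Not at h
      exact hside i a ⟨fun _ => h, fun _ => hcen i⟩
    have : (univ : Finset (Σ i : Fin k, Fin (s i))).card ≤ (range x).card := by
      refine Finset.card_le_card_of_injOn (fun z => ((φ ⟨z.1, some z.2⟩ : Fin _) : ℕ) - y) ?_ ?_
      · intro z _
        have h1 := hlf z.1 z.2
        have h2 := (φ ⟨z.1, some z.2⟩).2
        simp only [coe_range, Set.mem_Iio]
        omega
      · rintro ⟨i, a⟩ _ ⟨j, b⟩ _ hzz
        have h1 := hlf i a
        have h2 := hlf j b
        have h3 : (⟨i, some a⟩ : Σ i : Fin k, Option (Fin (s i))) = ⟨j, some b⟩ := by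
          refine hinj (Fin.ext ?_)
          simp only at hzz ⊢
          omega
        simp only [Sigma.mk.injEq] at h3
        obtain ⟨h4, h5⟩ := h3
        subst h4
        simp only [heq_eq_eq, Option.some.injEq] at h5
        rw [h5]
    rw [card_univ, Fintype.card_sigma, card_range] at this
    simp only [Fintype.card_fin] at this
    rw [Fin.sum_univ_eq_sum_range (fun i => s i) k] at this
    omega

/-- Two red cliques of the size of the largest star. -/
theorem not_arrows_two (s : ℕ → ℕ) (hs1 : 1 ≤ s 1) :
    ¬ Arrows (2 * s 0) (starForest 2 s) := by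
  intro hA
  set n := s 0 with hn
  let R : SimpleGraph (Fin (2 * n)) :=
    { Adj := fun u v => u ≠ v ∧ ((u : ℕ) < n ↔ (v : ℕ) < n)
      symm := ⟨fun u v h => ⟨h.1.symm, h.2.symm⟩⟩
      loopless := ⟨fun u h => h.1 rfl⟩ }
  let i0 : Fin 2 := 0
  let i1 : Fin 2 := 1
  have hi0 : s ((i0 : Fin 2) : ℕ) = n := rfl
  have hi1 : 1 ≤ s ((i1 : Fin 2) : ℕ) := hs1
  -- an injective family of values below `n` or of values in `[n, 2n)` has at most `n` members
  have key : ∀ g : Option (Fin (s i0)) → Fin (2 * n), Function.Injective g →
      (∀ a b, ((g a : Fin _) : ℕ) < n ↔ ((g b : Fin _) : ℕ) < n) → False := by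
    intro g hg hs
    have : (univ : Finset (Option (Fin (s i0)))).card ≤ (range n).card := by
      by_cases h0 : ((g none : Fin _) : ℕ) < n
      · refine Finset.card_le_card_of_injOn (fun b => ((g b : Fin _) : ℕ)) ?_ ?_
        · intro b _
          simpa using (hs b none).mpr h0
        · intro b _ b' _ hbb
          exact hg (Fin.ext hbb)
      · refine Finset.card_le_card_of_injOn (fun b => ((g b : Fin _) : ℕ) - n) ?_ ?_
        · intro b _
          have h1 := (hs b none).not.mpr h0
          have h2 := (g b).2
          simp only [coe_range, Set.mem_Iio]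
          omega
        · intro b _ b' _ hbb
          have h1 := (hs b none).not.mpr h0
          have h2 := (hs b' none).not.mpr h0
          refine hg (Fin.ext ?_)
          simp only at hbb
          omega
    rw [card_univ, Fintype.card_option, Fintype.card_fin, hi0, card_range] at this
    omega
  rcases hA R with hφ | hφ
  · obtain ⟨φ⟩ := hφ
    have hinj : Function.Injective (fun x => φ x) := φ.injective
    refine key (fun b => φ ⟨i0, b⟩) ?_ ?_
    · intro b b' hbb
      have := hinj hbb
      simpa using this
    · have hc : ∀ a, (((φ ⟨i0, none⟩ : Fin _) : ℕ) < n ↔ ((φ ⟨i0, a⟩ : Fin _) : ℕ) < n) := by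
        intro a
        rcases a with _ | a
        · rfl
        · have h1 : R.Adj (φ ⟨i0, none⟩) (φ ⟨i0, some a⟩) :=
            φ.toHom.map_adj (starForest_adj 2 s i0 _)
          exact h1.2
      intro a b
      exact (hc a).symm.trans (hc b)
  · obtain ⟨φ⟩ := hφ
    have hinj : Function.Injective (fun x => φ x) := φ.injective
    have hside : ∀ (i : Fin 2) (a : Fin (s i)),
        ¬ (((φ ⟨i, none⟩ : Fin _) : ℕ) < n ↔ ((φ ⟨i, some a⟩ : Fin _) : ℕ) < n) := by
      intro i a hiff
      have h1 : Rᶜ.Adj (φ ⟨i, none⟩) (φ ⟨i, some a⟩) :=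
        φ.toHom.map_adj (starForest_adj 2 s i _)
      rw [SimpleGraph.compl_adj] at h1
      exact h1.2 ⟨h1.1, hiff⟩
    -- a vertex of the star 1 on the side of the leaves of the star 0
    obtain ⟨b, hb⟩ : ∃ b : Option (Fin (s i1)),
        ¬ (((φ ⟨i0, none⟩ : Fin _) : ℕ) < n ↔ ((φ ⟨i1, b⟩ : Fin _) : ℕ) < n) := by
      have h1 := hside i1 ⟨0, hi1⟩
      by_cases h : (((φ ⟨i0, none⟩ : Fin _) : ℕ) < n ↔ ((φ ⟨i1, none⟩ : Fin _) : ℕ) < n)
      · exact ⟨some ⟨0, hi1⟩, fun h' => h1 (h.symm.trans h')⟩
      · exact ⟨none, h⟩
    refine key (fun o => match o with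
      | none => φ ⟨i1, b⟩
      | some a => φ ⟨i0, some a⟩) ?_ ?_
    · intro o o' hoo
      rcases o with _ | a
      · rcases o' with _ | a'
        · rfl
        · have := hinj hoo
          simp only [Sigma.mk.injEq] at this
          exact absurd this.1 (by decide)
      · rcases o' with _ | a'
        · have := hinj hoo
          simp only [Sigma.mk.injEq] at this
          exact absurd this.1 (by decide)
        · have := hinj hoo
          simpa using this
    · have hc : ∀ o : Option (Fin (s i0)), ¬ (((φ ⟨i0, none⟩ : Fin _) : ℕ) < n ↔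
          (((match o with
            | none => φ ⟨i1, b⟩
            | some a => φ ⟨i0, some a⟩) : Fin _) : ℕ) < n) := by
        intro o
        rcases o with _ | a
        · exact hb
        · exact hside i0 a
      intro a b
      have h1 := hc a
      have h2 := hc b
      tauto

theorem lt_ramsey {V : Type} {G : SimpleGraph V} {N M : ℕ} (hM : Arrows M G)
    (hN : ¬ Arrows N G) : N + 1 ≤ ramseyNumber G := by
  by_contra h
  push Not at h
  have h1 : Arrows (ramseyNumber G) G := Nat.sInf_mem (s := {N : ℕ | Arrows N G}) ⟨M, hM⟩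
  exact hN (h1.mono (by omega))

/-- The leading term `M(F) = max_i (n_1 + ... + n_{i-1} + 2 n_i)` of the star forest `F` with
star sizes `n_1 = s 0, n_2 = s 1, ..., n_k = s (k-1)`. -/
def leadingTerm (k : ℕ) (s : ℕ → ℕ) : ℕ :=
  (range k).sup fun i => ∑ l ∈ range i, s l + 2 * s i

theorem main_bounds (k : ℕ) (hk : 2 ≤ k) (s : ℕ → ℕ) (hs : ∀ i j, i ≤ j → j < k → s j ≤ s i)
    (hpos : ∀ i < k, 1 ≤ s i) :
    leadingTerm k s ≤ ramseyNumber (starForest k s) ∧
    2 * s 0 + 1 ≤ ramseyNumber (starForest k s) ∧
    ∑ l ∈ range k, s l + (2 * k - 1) ≤ ramseyNumber (starForest k s) ∧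
    (∃ i < k, ramseyNumber (starForest k s) ≤ ∑ l ∈ range i, s l + 2 * s i + (3 * k - 1 - i)) ∧
    ramseyNumber (starForest k s) ≤ leadingTerm k s + (3 * k - 1) := by
  -- the upper bound
  obtain ⟨i, hi, hmax⟩ := Finset.exists_max_image (range k)
    (fun i => ∑ l ∈ range i, s l + 2 * s i + (3 * k - 1 - i)) ⟨0, by simp; omega⟩
  have hU : Arrows (∑ l ∈ range i, s l + 2 * s i + (3 * k - 1 - i)) (starForest k s) := by
    refine arrows_of_bound k _ s (by omega) ?_
    intro j hj
    exact hmax j (by simpa using hj)
  have hUp : ramseyNumber (starForest k s) ≤ ∑ l ∈ range i, s l + 2 * s i + (3 * k - 1 - i) :=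
    Nat.sInf_le hU
  have hterm : ∀ j < k, ∑ l ∈ range j, s l + 2 * s j ≤ leadingTerm k s := by
    intro j hj
    exact Finset.le_sup (f := fun i => ∑ l ∈ range i, s l + 2 * s i) (by simpa using hj)
  have hik : i < k := by simpa using hi
  have h2 : 2 * s 0 + 1 ≤ ramseyNumber (starForest k s) := by
    refine lt_ramsey hU ?_
    intro hA
    exact not_arrows_two s (hpos 1 (by omega)) (hA.sub hk)
  refine ⟨?_, h2, ?_, ⟨i, hik, hUp⟩, ?_⟩
  · refine Finset.sup_le ?_
    intro j hj
    have hjk : j < k := by simpa using hj
    rcases Nat.eq_zero_or_pos j with rfl | hj0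
    · simp only [range_zero, sum_empty]
      omega
    · have hsum : ∑ l ∈ range (j + 1), s l = ∑ l ∈ range j, s l + s j :=
        Finset.sum_range_succ _ _
      have hj1 := hpos j hjk
      have := lt_ramsey (N := (∑ l ∈ range (j + 1), s l - 1) + s j) hU (by
        intro hA
        refine not_arrows_bip (j + 1) _ (s j) (by omega) s (fun l hl => hpos l (by omega))
          (fun l hl => hs l j (by omega) hjk) ?_ (hA.sub (by omega))
        omega)
      omega
  · have := lt_ramsey hU (not_arrows_cover k (by omega) s hpos)
    omega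
  · have := hterm i hik
    omega

/-- For a star forest `F` with `k ≥ 2` stars of sizes `s 0 ≥ ... ≥ s (k-1) ≥ 1`:
`M(F) ≤ r(F) ≤ M(F) + 3 k - 1`, together with the two further lower bounds `2 n_1 + 1` and
`n_1 + ... + n_k + 2 k - 1` and a sharper form of the upper bound; in particular
`(a + 2) k - 1 ≤ r(k K_{1,a}) ≤ (a + 2) k + a`. -/
theorem result :
    (∀ (k : ℕ) (s : ℕ → ℕ), 2 ≤ k → (∀ i j, i ≤ j → j < k → s j ≤ s i) → (∀ i < k, 1 ≤ s i) →
      leadingTerm k s ≤ ramseyNumber (starForest k s) ∧
      2 * s 0 + 1 ≤ ramseyNumber (starForest k s) ∧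
      ∑ l ∈ range k, s l + (2 * k - 1) ≤ ramseyNumber (starForest k s) ∧
      (∃ i < k, ramseyNumber (starForest k s) ≤
        ∑ l ∈ range i, s l + 2 * s i + (3 * k - 1 - i)) ∧
      ramseyNumber (starForest k s) ≤ leadingTerm k s + (3 * k - 1)) ∧
    (∀ k a : ℕ, 2 ≤ k → 1 ≤ a →
      (a + 2) * k - 1 ≤ ramseyNumber (starForest k (fun _ => a)) ∧
      ramseyNumber (starForest k (fun _ => a)) ≤ (a + 2) * k + a) := by
  refine ⟨fun k s hk hs hpos => main_bounds k hk s hs hpos, ?_⟩
  intro k a hk ha
  obtain ⟨_, _, h3, ⟨i, hi, h4⟩, _⟩ := main_bounds k hk (fun _ => a) (fun _ _ _ _ => le_rfl)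
    (fun _ _ => ha)
  simp only [Finset.sum_const, card_range, smul_eq_mul] at h3 h4
  constructor
  · have : (a + 2) * k = k * a + 2 * k := by ring
    omega
  · refine h4.trans ?_
    obtain ⟨b, rfl⟩ : ∃ b, a = b + 1 := ⟨a - 1, by omega⟩
    obtain ⟨m, rfl⟩ : ∃ m, k = i + 1 + m := ⟨k - 1 - i, by omega⟩
    rw [show 3 * (i + 1 + m) - 1 - i = 2 * i + 2 + 3 * m by omega]
    nlinarith [Nat.zero_le (m * b)]

end Pool.Agent.Results.MP_705b7e_co.StarForestBounds
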